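import Pool.Agent.H14.ES.Stm

/-!
Part UNT of the crew ES (`MP_9214e0_lc`): untwisting a cocycle.
-/

set_option autoImplicit false

namespace H33.ES

open MeasureTheory Set H14.ES
open scoped ENNReal

theorem sh_mul {I : Type} (p q : Equiv.Perm I) (ω : I → Bool) :
    sh (p * q) ω = sh p (sh q ω) := by
  funext i
  simp only [sh, mul_inv_rev, Equiv.Perm.mul_apply]

theorem mp_sh (hR : S_REI) {I : Type} [Countable I] (p : Equiv.Perm I) :
    MeasurePreserving (sh p) (mu I) (mu I) := hR I I (p⁻¹)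

/-- put a layer in front -/
def cons {D : Type} (q : (D → Bool) × (D × ℕ → Bool)) (i : D × ℕ) : Bool :=
  if i.2 = 0 then q.1 i.1 else q.2 (i.1, i.2 - 1)

theorem mp_cons (hP : S_REP) {D : Type} [Countable D] :
    MeasurePreserving (cons (D := D)) ((mu D).prod (mu (D × ℕ))) (mu (D × ℕ)) := (hP D).2

theorem lay0_cons {D : Type} (q : (D → Bool) × (D × ℕ → Bool)) : lay 0 (cons q) = q.1 := by
  funext d; simp [lay, cons]

theorem lay1_cons {D : Type} (q : (D → Bool) × (D × ℕ → Bool)) :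
    lay 1 (cons q) = lay 0 q.2 := by
  funext d; simp [lay, cons]

theorem sh_cons {D : Type} (p : Equiv.Perm D) (q : (D → Bool) × (D × ℕ → Bool)) :
    sh (lift p) (cons q) = cons (sh p q.1, sh (lift p) q.2) := by
  funext i
  rfl

theorem t_UNT (h1 : S_ER4) (h2 : S_REP) (h3 : S_REI) (_h4 : S_ERG) : S_UNT := by
  intro D _ F _ _ π hk0 Λ _ _ _ _ α hα hcoc Φ hΦm hΦ
  obtain ⟨k0, hk0⟩ := hk0
  -- the measures
  set μD := mu D with hμD
  set μN := mu (D × ℕ) with hμN
  have mpD : ∀ k, MeasurePreserving (sh (π k)) μD μD := fun k => mp_sh h3 _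
  have mpN : ∀ k, MeasurePreserving (sh (lift (π k))) μN μN := fun k => mp_sh h3 _
  -- Φ' on pairs
  set Φ' : (D → Bool) × (D × ℕ → Bool) → Λ := fun q => Φ (cons q) with hΦ'
  have hΦ'm : Measurable Φ' := hΦm.comp (mp_cons h2).measurable
  have hI : ∀ k, ∀ᵐ q ∂(μD.prod μN), Φ' (sh (π k) q.1, sh (lift (π k)) q.2) =
      α k q.1 * Φ' q * (α k (lay 0 q.2))⁻¹ := by
    intro k
    have := (mp_cons h2 (D := D)).quasiMeasurePreserving.ae (hΦ k)
    filter_upwards [this] with q hq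
    rw [sh_cons, lay0_cons, lay1_cons] at hq
    exact hq
  -- Ψ
  set Ψ : ((D → Bool) × (D → Bool)) × (D × ℕ → Bool) → Λ :=
    fun q => Φ' (q.1.1, q.2) * (Φ' (q.1.2, q.2))⁻¹ with hΨ
  have hΨm : Measurable Ψ := by
    apply Measurable.mul
    · exact hΦ'm.comp (by fun_prop)
    · exact (hΦ'm.comp (by fun_prop)).inv
  have hJ : ∀ k, ∀ᵐ q ∂((μD.prod μD).prod μN),
      Ψ ((sh (π k) q.1.1, sh (π k) q.1.2), sh (lift (π k)) q.2) =
      α k q.1.1 * Ψ q * (α k q.1.2)⁻¹ := by
    intro k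
    have e1 : Measure.QuasiMeasurePreserving
        (fun q : ((D → Bool) × (D → Bool)) × (D × ℕ → Bool) => (q.1.1, q.2))
        ((μD.prod μD).prod μN) (μD.prod μN) :=
      ((MeasureTheory.measurePreserving_fst (μ := μD) (ν := μD)).prod
        (MeasurePreserving.id μN)).quasiMeasurePreserving
    have e2 : Measure.QuasiMeasurePreserving
        (fun q : ((D → Bool) × (D → Bool)) × (D × ℕ → Bool) => (q.1.2, q.2))
        ((μD.prod μD).prod μN) (μD.prod μN) :=
      ((MeasureTheory.measurePreserving_snd (μ := μD) (ν := μD)).prod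
        (MeasurePreserving.id μN)).quasiMeasurePreserving
    filter_upwards [e1.ae (hI k), e2.ae (hI k)] with q hq1 hq2
    simp only [hΨ] at *
    rw [hq1, hq2]
    group
  -- the set A
  set A : Set (((D → Bool) × (D → Bool)) × ((D × ℕ → Bool) × (D × ℕ → Bool))) :=
    {q | Ψ (q.1, q.2.1) = Ψ (q.1, q.2.2)} with hA
  have hAm : MeasurableSet A :=
    measurableSet_eq_fun (hΨm.comp (by fun_prop)) (hΨm.comp (by fun_prop))
  have hAinv : ((fun q : ((D → Bool) × (D → Bool)) × ((D × ℕ → Bool) × (D × ℕ → Bool)) =>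
      ((sh (π k0) q.1.1, sh (π k0) q.1.2), (sh (lift (π k0)) q.2.1, sh (lift (π k0)) q.2.2))) ⁻¹' A
      =ᵐ[((μD).prod μD).prod (μN.prod μN)] A) := by
    have e1 : Measure.QuasiMeasurePreserving
        (fun q : ((D → Bool) × (D → Bool)) × ((D × ℕ → Bool) × (D × ℕ → Bool)) => (q.1, q.2.1))
        ((μD.prod μD).prod (μN.prod μN)) ((μD.prod μD).prod μN) :=
      ((MeasurePreserving.id (μD.prod μD)).prod
        (MeasureTheory.measurePreserving_fst (μ := μN) (ν := μN))).quasiMeasurePreserving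
    have e2 : Measure.QuasiMeasurePreserving
        (fun q : ((D → Bool) × (D → Bool)) × ((D × ℕ → Bool) × (D × ℕ → Bool)) => (q.1, q.2.2))
        ((μD.prod μD).prod (μN.prod μN)) ((μD.prod μD).prod μN) :=
      ((MeasurePreserving.id (μD.prod μD)).prod
        (MeasureTheory.measurePreserving_snd (μ := μN) (ν := μN))).quasiMeasurePreserving
    rw [Filter.eventuallyEq_set]
    filter_upwards [e1.ae (hJ k0), e2.ae (hJ k0)] with q hq1 hq2
    simp only [hA, mem_preimage, mem_ofPred_eq]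
    rw [hq1, hq2]
    constructor
    · intro h
      have := mul_right_cancel h
      exact mul_left_cancel this
    · intro h
      rw [h]
  have hA01 := h1 D (π k0) hk0 A hAm hAinv
  have hA0 : ((μD.prod μD).prod (μN.prod μN)) A ≠ 0 := by
    intro h0
    rw [Measure.measure_prod_null hAm] at h0
    obtain ⟨p, hp⟩ := h0.exists
    simp only [Pi.zero_apply] at hp
    have hsub : ∀ l : Λ, μN {w | Ψ (p, w) = l} = 0 := by
      intro l
      have hs : {w | Ψ (p, w) = l} ×ˢ {w | Ψ (p, w) = l} ⊆ Prod.mk p ⁻¹' A := by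
        rintro ⟨w, w'⟩ ⟨hw, hw'⟩
        simp only [mem_ofPred_eq] at hw hw'
        simp only [hA, mem_preimage, mem_ofPred_eq]
        rw [hw, hw']
      have := measure_mono_null hs hp
      rw [Measure.prod_prod] at this
      exact mul_self_eq_zero.1 this
    have hun : μN univ = 0 := by
      have : (univ : Set (D × ℕ → Bool)) = ⋃ l : Λ, {w | Ψ (p, w) = l} := by
        ext w; simp
      rw [this]
      exact measure_iUnion_null hsub
    simp at hun
  have hA1 : ((μD.prod μD).prod (μN.prod μN)) A = 1 := hA01.resolve_left hA0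
  have hAae : ∀ᵐ q ∂((μD.prod μD).prod (μN.prod μN)), Ψ (q.1, q.2.1) = Ψ (q.1, q.2.2) := by
    have := (prob_compl_eq_zero_iff hAm).2 hA1
    exact this
  -- choose w'
  have hswap : ∀ᵐ q ∂(μN.prod ((μD.prod μD).prod μN)), Ψ q.2 = Ψ (q.2.1, q.1) := by
    have e : MeasurePreserving
        (fun q : (D × ℕ → Bool) × (((D → Bool) × (D → Bool)) × (D × ℕ → Bool)) =>
          (q.2.1, (q.2.2, q.1)))
        (μN.prod ((μD.prod μD).prod μN)) ((μD.prod μD).prod (μN.prod μN)) := by
      have a1 : MeasurePreserving (Prod.swap : (D × ℕ → Bool) ×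
          (((D → Bool) × (D → Bool)) × (D × ℕ → Bool)) → _)
          (μN.prod ((μD.prod μD).prod μN)) (((μD.prod μD).prod μN).prod μN) :=
        Measure.measurePreserving_swap
      have a2 : MeasurePreserving (MeasurableEquiv.prodAssoc (α := (D → Bool) × (D → Bool))
          (β := D × ℕ → Bool) (γ := D × ℕ → Bool)) (((μD.prod μD).prod μN).prod μN)
          ((μD.prod μD).prod (μN.prod μN)) :=
        measurePreserving_prodAssoc _ _ _
      exact a2.comp a1
    exact e.quasiMeasurePreserving.ae hAae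
  obtain ⟨w1, hw1⟩ := (Measure.ae_ae_of_ae_prod hswap).exists
  simp only at hw1
  set b : (D → Bool) → Λ := fun x => Φ' (x, w1) with hb
  have hbm : Measurable b := hΦ'm.comp (by fun_prop)
  have hΨb : ∀ᵐ q ∂((μD.prod μD).prod μN), Ψ q = b q.1.1 * (b q.1.2)⁻¹ := hw1
  -- the constants
  have hc : ∀ k, ∃ c : Λ, ∀ᵐ x ∂μD, (b (sh (π k) x))⁻¹ * α k x * b x = c := by
    intro k
    have e : Measure.QuasiMeasurePreserving
        (fun q : ((D → Bool) × (D → Bool)) × (D × ℕ → Bool) =>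
          ((sh (π k) q.1.1, sh (π k) q.1.2), sh (lift (π k)) q.2))
        ((μD.prod μD).prod μN) ((μD.prod μD).prod μN) :=
      (((mpD k).prod (mpD k)).prod (mpN k)).quasiMeasurePreserving
    have hall : ∀ᵐ q ∂((μD.prod μD).prod μN),
        (b (sh (π k) q.1.1))⁻¹ * α k q.1.1 * b q.1.1 =
        (b (sh (π k) q.1.2))⁻¹ * α k q.1.2 * b q.1.2 := by
      filter_upwards [e.ae hΨb, hΨb, hJ k] with q hq1 hq2 hq3
      rw [hq1, hq2] at hq3
      -- b(kx) b(kz)⁻¹ = α x * (b x * (b z)⁻¹) * (α z)⁻¹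
      have : (b (sh (π k) q.1.1))⁻¹ * (b (sh (π k) q.1.1) * (b (sh (π k) q.1.2))⁻¹) *
          α k q.1.2 * b q.1.2 = (b (sh (π k) q.1.1))⁻¹ *
          (α k q.1.1 * (b q.1.1 * (b q.1.2)⁻¹) * (α k q.1.2)⁻¹) * α k q.1.2 * b q.1.2 := by
        rw [hq3]
      have l1 : (b (sh (π k) q.1.1))⁻¹ * (b (sh (π k) q.1.1) * (b (sh (π k) q.1.2))⁻¹) *
          α k q.1.2 * b q.1.2 = (b (sh (π k) q.1.2))⁻¹ * α k q.1.2 * b q.1.2 := by group
      have l2 : (b (sh (π k) q.1.1))⁻¹ *
          (α k q.1.1 * (b q.1.1 * (b q.1.2)⁻¹) * (α k q.1.2)⁻¹) * α k q.1.2 * b q.1.2 =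
          (b (sh (π k) q.1.1))⁻¹ * α k q.1.1 * b q.1.1 := by group
      rw [l1, l2] at this
      exact this.symm
    have h2' : ∀ᵐ p ∂(μD.prod μD), (b (sh (π k) p.1))⁻¹ * α k p.1 * b p.1 =
        (b (sh (π k) p.2))⁻¹ * α k p.2 * b p.2 := by
      have := Measure.ae_ae_of_ae_prod hall
      filter_upwards [this] with p hp
      exact hp.exists.choose_spec
    have h3' : ∀ᵐ z ∂μD, ∀ᵐ x ∂μD, (b (sh (π k) z))⁻¹ * α k z * b z =
        (b (sh (π k) x))⁻¹ * α k x * b x := Measure.ae_ae_of_ae_prod h2'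
    obtain ⟨z, hz⟩ := h3'.exists
    exact ⟨_, hz.mono fun x hx => hx.symm⟩
  choose c hc using hc
  have hmul : ∀ k k', c (k * k') = c k * c k' := by
    intro k k'
    have q1 := (mpD k').quasiMeasurePreserving.ae (hc k)
    obtain ⟨x, hx1, hx2, hx3, hx4⟩ :=
      ((hc (k * k')).and (q1.and ((hc k').and (hcoc k k')))).exists
    rw [← hx1, ← hx2, ← hx3, hx4, map_mul, sh_mul]
    group
  refine ⟨b, MonoidHom.mk' c hmul, hbm, fun k => ?_⟩
  filter_upwards [hc k] with x hx
  simp only [MonoidHom.mk'_apply]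
  rw [← hx]
  group

end H33.ES
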