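import Pool.Agent.H14.ES.Stm

/-!
Part HOM of the crew ES (`MP_9214e0_lc`): the homomorphism.
-/

set_option autoImplicit false

namespace H33.ES.Hom

open MeasureTheory Set H14.ES
open scoped ENNReal

theorem sh_mul {I : Type} (p q : Equiv.Perm I) (ω : I → Bool) :
    sh (p * q) ω = sh p (sh q ω) := by
  funext i
  simp only [sh, mul_inv_rev, Equiv.Perm.mul_apply]

theorem mp_sh (hR : S_REI) {I : Type} [Countable I] (p : Equiv.Perm I) :
    MeasurePreserving (sh p) (mu I) (mu I) := hR I I (p⁻¹)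

open Classical in
/-- the group element with `u x = l • v x` (`1` if there is none) -/
noncomputable def coc {Ω Λ Y : Type} [Group Λ] [MulAction Λ Y] (u v : Ω → Y) (x : Ω) : Λ :=
  if h : ∃ l : Λ, u x = l • v x then h.choose else 1

theorem coc_eq {Ω Λ Y : Type} [Group Λ] [MulAction Λ Y] (hfree : ∀ (l : Λ) (y : Y), l • y = y → l = 1)
    (u v : Ω → Y) (x : Ω) (l : Λ) (h : u x = l • v x) : coc (Λ := Λ) u v x = l := by
  have hex : ∃ l : Λ, u x = l • v x := ⟨l, h⟩
  have e : coc (Λ := Λ) u v x = hex.choose := by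
    unfold coc
    rw [dif_pos hex]
  rw [e]
  have h2 := hex.choose_spec
  generalize hex.choose = l2 at h2 ⊢
  rw [h] at h2
  have : (l⁻¹ * l2) • v x = v x := by
    rw [mul_smul, ← h2, inv_smul_smul]
  have := hfree _ _ this
  exact (inv_mul_eq_one.1 this).symm

theorem coc_smul {Ω Λ Y : Type} [Group Λ] [MulAction Λ Y]
    (u v : Ω → Y) (x : Ω) (h : ∃ l : Λ, u x = l • v x) : u x = coc (Λ := Λ) u v x • v x := by
  unfold coc
  rw [dif_pos h]
  exact h.choose_spec

theorem meas_coc {Ω Λ Y : Type} [MeasurableSpace Ω] [Group Λ] [Countable Λ] [MeasurableSpace Λ]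
    [DiscreteMeasurableSpace Λ] [MeasurableSpace Y]
    [StandardBorelSpace Y] [MulAction Λ Y] (hm : ∀ l : Λ, Measurable (fun y : Y => l • y))
    (hfree : ∀ (l : Λ) (y : Y), l • y = y → l = 1)
    (u v : Ω → Y) (hu : Measurable u) (hv : Measurable v) : Measurable (coc (Λ := Λ) u v) := by
  have hS : ∀ l : Λ, MeasurableSet {x | u x = l • v x} := fun l =>
    measurableSet_eq_fun hu ((hm l).comp hv)
  refine measurable_to_countable' fun l => ?_
  by_cases hl : l = 1
  · have : coc (Λ := Λ) u v ⁻¹' {l} = {x | u x = l • v x} ∪ (⋃ l' : Λ, {x | u x = l' • v x})ᶜ := by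
      ext x
      simp only [mem_preimage, mem_singleton_iff, mem_union, mem_ofPred_eq, mem_compl_iff, mem_iUnion]
      constructor
      · intro h
        by_cases hex : ∃ l' : Λ, u x = l' • v x
        · left
          rw [← h]
          exact coc_smul u v x hex
        · right
          exact hex
      · rintro (h | h)
        · exact coc_eq hfree u v x l h
        · unfold coc
          rw [dif_neg h, hl]
    rw [this]
    exact (hS l).union (MeasurableSet.iUnion hS).compl
  · have : coc (Λ := Λ) u v ⁻¹' {l} = {x | u x = l • v x} := by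
      ext x
      simp only [mem_preimage, mem_singleton_iff, mem_ofPred_eq]
      constructor
      · intro h
        by_cases hex : ∃ l' : Λ, u x = l' • v x
        · rw [← h]
          exact coc_smul u v x hex
        · exfalso
          apply hl
          rw [← h]
          unfold coc
          rw [dif_neg hex]
      · intro h
        exact coc_eq hfree u v x l h
    rw [this]
    exact hS l

theorem t_HOM (h1 : S_CHN) (h2 : S_UNT) (h3 : S_REI) : S_HOM := by
  intro D _ ρ hρ F _ _ π hcomm hk Λ _ _ Y _ _ _ hm hfree f hf hfρ hfπ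
  letI : MeasurableSpace Λ := ⊤
  haveI : DiscreteMeasurableSpace Λ := ⟨fun _ => trivial⟩
  have mpπ : ∀ k, MeasurePreserving (sh (π k)) (mu D) (mu D) := fun k => mp_sh h3 _
  have mpρ : ∀ h, MeasurePreserving (sh (ρ h)) (mu D) (mu D) := fun k => mp_sh h3 _
  set α : F → (D → Bool) → Λ := fun k => coc (fun x => f (sh (π k) x)) f with hα
  set β : Bool → (D → Bool) → Λ := fun s => coc (fun x => f (sh (ρ (FreeGroup.of s)) x)) f with hβ
  have hαm : ∀ k, Measurable (α k) := fun k =>
    meas_coc hm hfree _ _ (hf.comp (mpπ k).measurable) hf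
  have hβm : ∀ s, Measurable (β s) := fun s =>
    meas_coc hm hfree _ _ (hf.comp (mpρ _).measurable) hf
  have hαs : ∀ k, ∀ᵐ x ∂(mu D), f (sh (π k) x) = α k x • f x := by
    intro k
    filter_upwards [hfπ k] with x hx
    exact coc_smul (fun x => f (sh (π k) x)) f x hx
  have hβs : ∀ s, ∀ᵐ x ∂(mu D), f (sh (ρ (FreeGroup.of s)) x) = β s x • f x := by
    intro s
    filter_upwards [hfρ s] with x hx
    exact coc_smul (fun x => f (sh (ρ (FreeGroup.of s)) x)) f x hx
  have hcoc : ∀ k k', ∀ᵐ x ∂(mu D), α (k * k') x = α k (sh (π k') x) * α k' x := by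
    intro k k'
    filter_upwards [(mpπ k').quasiMeasurePreserving.ae (hαs k), hαs k'] with x hx1 hx2
    apply coc_eq hfree
    rw [map_mul, sh_mul, hx1, hx2, mul_smul]
  have hcc : ∀ s k, ∀ᵐ x ∂(mu D), β s (sh (π k) x) * α k x =
      α k (sh (ρ (FreeGroup.of s)) x) * β s x := by
    intro s k
    filter_upwards [(mpπ k).quasiMeasurePreserving.ae (hβs s), hαs k,
      (mpρ (FreeGroup.of s)).quasiMeasurePreserving.ae (hαs k), hβs s] with x hx1 hx2 hx3 hx4
    have e : sh (ρ (FreeGroup.of s)) (sh (π k) x) = sh (π k) (sh (ρ (FreeGroup.of s)) x) := by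
      rw [← sh_mul, ← sh_mul, hcomm]
    rw [hx2, e, hx3, hx4, ← mul_smul, ← mul_smul] at hx1
    -- (α β) • f x = (β α) • f x
    have : ((α k (sh (ρ (FreeGroup.of s)) x) * β s x)⁻¹ *
        (β s (sh (π k) x) * α k x)) • f x = f x := by
      rw [mul_smul, ← hx1, inv_smul_smul]
    have := hfree _ _ this
    exact (inv_mul_eq_one.1 this).symm
  obtain ⟨Φ, hΦm, hΦ⟩ := h1 D ρ hρ F π hcomm hk Λ α β hαm hβm hcoc hcc
  obtain ⟨b, φ, hbm, hb⟩ := h2 D F π hk Λ α hαm hcoc Φ hΦm hΦ
  refine ⟨fun x => (b x)⁻¹ • f x, φ, ?_, fun x => ⟨(b x)⁻¹, rfl⟩, ?_⟩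
  · have hg : Measurable (fun p : (D → Bool) × Λ => p.2⁻¹ • f p.1) :=
      measurable_from_prod_countable_left fun l => (hm l⁻¹).comp hf
    exact hg.comp (measurable_id.prodMk hbm)
  · intro k
    filter_upwards [hb k, hαs k] with x hx1 hx2
    rw [hx2, hx1]
    simp only [← mul_smul]
    congr 1
    group

end H33.ES.Hom
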